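import Mathlib

/-!
# A connected cubic graph with `Z(G) ≥ α(G) + 2`

The graph has 36 vertices. Three vertices `c 0, c 1, c 2` form a triangle. Each `c i` is joined to a
vertex `r i`, and `r i` is joined to the vertex `0` of two copies of `K₄` with a subdivided edge
(vertices `0, 1, 2, 3, 4`, edges `01, 02, 13, 14, 23, 24, 34`). The independence number is at
most `15` and no set of at most `16` vertices is zero forcing.
-/

namespace Pool.Agent.Results.MP_48c3bc_co.CubicCounterexample

/-- The closure of `S` under the colour-change rule: `v` belongs to the closure if it is in `S`, or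
if some `u` in the closure is adjacent to `v` and all neighbours of `u` other than `v` are in
the closure. -/
inductive Coloured {V : Type} (G : SimpleGraph V) (S : Finset V) : V → Prop
  | base (v : V) (h : v ∈ S) : Coloured G S v
  | force (u v : V) (hu : Coloured G S u) (huv : G.Adj u v)
      (h : ∀ w, G.Adj u w → w ≠ v → Coloured G S w) : Coloured G S v

/-- `S` is a zero forcing set of `G`: its closure is the whole vertex set. -/
def IsZeroForcing {V : Type} (G : SimpleGraph V) (S : Finset V) : Prop :=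
  ∀ v, Coloured G S v

/-- The zero forcing number `Z(G)`: the least size of a zero forcing set. -/
noncomputable def zeroForcingNumber {V : Type} (G : SimpleGraph V) : ℕ :=
  sInf {k | ∃ S : Finset V, S.card = k ∧ IsZeroForcing G S}

/-- Every zero forcing set meets every nonempty set `F` such that no vertex outside `F` has exactly
one neighbour in `F`. -/
theorem meets_fort {V : Type} {G : SimpleGraph V} {S : Finset V} (hS : IsZeroForcing G S)
    (F : Finset V) (hne : F.Nonempty)
    (hF : ∀ u, u ∉ F → ∀ v ∈ F, G.Adj u v → ∃ w ∈ F, w ≠ v ∧ G.Adj u w) :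
    ∃ v ∈ F, v ∈ S := by
  by_contra hcon
  push Not at hcon
  have key : ∀ v, Coloured G S v → v ∉ F := by
    intro v hv
    induction hv with
    | base v h => exact fun hvF => hcon v hvF h
    | force u v _ huv _ ihu ih =>
      intro hvF
      obtain ⟨w, hwF, hwv, huw⟩ := hF u ihu v hvF huv
      exact ih w huw hwv hwF
  obtain ⟨v, hv⟩ := hne
  exact key v (hS v) hv

/-- The vertices of one branch: `inl 0` is `c`, `inl 1` is `r`, `inr (j, k)` is the vertex `k` of
the `j`-th copy of the subdivided `K₄`. -/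
abbrev W := Fin 2 ⊕ (Fin 2 × Fin 5)

/-- The vertex set of the graph. -/
abbrev V36 := Fin 3 × W

/-- `K₄` on `1, 2, 3, 4` with the edge `12` subdivided by `0`. -/
def b5 (k l : Fin 5) : Bool :=
  decide ((k, l) ∈ ([(0, 1), (1, 0), (0, 2), (2, 0), (1, 3), (3, 1), (1, 4), (4, 1), (2, 3),
    (3, 2), (2, 4), (4, 2), (3, 4), (4, 3)] : List (Fin 5 × Fin 5)))

/-- Adjacency within a branch. -/
def branchAdj : W → W → Bool
  | .inl a, .inl b => decide (a ≠ b)
  | .inl a, .inr (_, k) => decide (a = 1) && decide (k = 0)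
  | .inr (_, k), .inl a => decide (a = 1) && decide (k = 0)
  | .inr (j, k), .inr (j', k') => decide (j = j') && b5 k k'

/-- Adjacency of the graph. -/
def adj (x y : V36) : Bool :=
  if x.1 = y.1 then branchAdj x.2 y.2 else (decide (x.2 = .inl 0) && decide (y.2 = .inl 0))

theorem adj_symm : ∀ x y : V36, adj x y = adj y x := by decide +kernel

theorem adj_irrefl : ∀ x : V36, adj x x = false := by decide +kernel

/-- The graph. -/
def G36 : SimpleGraph V36 where
  Adj x y := adj x y = true
  symm := ⟨fun x y h => by rw [adj_symm]; exact h⟩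
  loopless := ⟨fun x h => by rw [adj_irrefl] at h; exact Bool.false_ne_true h⟩

instance : DecidableRel G36.Adj := fun x y => inferInstanceAs (Decidable (adj x y = true))

theorem degree_three : ∀ v : V36, (Finset.univ.filter (fun w => adj v w = true)).card = 3 := by
  decide +kernel

/-- A partition of the vertices into 15 cliques. -/
def cl : V36 → Fin 3 × Option (Fin 2 × Bool)
  | (i, .inl _) => (i, none)
  | (i, .inr (j, k)) => (i, some (j, decide (k = 0 ∨ k = 1)))

theorem cl_clique : ∀ x y : V36, cl x = cl y → x ≠ y → adj x y = true := by decide +kernel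

theorem indepNum_le : G36.indepNum ≤ 15 := by
  obtain ⟨s, hs⟩ := G36.exists_isNIndepSet_indepNum
  rw [← hs.card_eq]
  have hinj : Set.InjOn cl (s : Set V36) := by
    intro x hx y hy hxy
    by_contra hne
    exact hs.isIndepSet hx hy hne (cl_clique x y hxy hne)
  have h1 : s.card = (s.image cl).card := (Finset.card_image_of_injOn hinj).symm
  have h2 : (s.image cl).card ≤ Fintype.card (Fin 3 × Option (Fin 2 × Bool)) :=
    Finset.card_le_univ _
  rw [h1]
  refine h2.trans ?_
  decide

/-- `F` is a fort. -/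
def Fort (F : Finset V36) : Prop :=
  ∀ u, u ∉ F → ∀ v ∈ F, adj u v = true → ∃ w ∈ F, w ≠ v ∧ adj u w = true

instance (F : Finset V36) : Decidable (Fort F) := by
  unfold Fort; infer_instance

theorem fort1 : ∀ (i : Fin 3) (j : Fin 2), Fort {(i, .inr (j, 3)), (i, .inr (j, 4))} := by
  decide +kernel

theorem fort2 : ∀ (i : Fin 3) (j : Fin 2), Fort {(i, .inr (j, 1)), (i, .inr (j, 2))} := by
  decide +kernel

/-- `1` or `2`. -/
def p (b : Bool) : Fin 5 := if b then 1 else 2

/-- `3` or `4`. -/
def q (b : Bool) : Fin 5 := if b then 3 else 4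

/-- The half-fort in the copy `(i, j)`. -/
def H (i : Fin 3) (j : Fin 2) (a b : Bool) : Finset V36 :=
  {(i, .inr (j, 0)), (i, .inr (j, p a)), (i, .inr (j, q b))}

theorem fort3 : ∀ (i : Fin 3) (a b a' b' : Bool), Fort (H i 0 a b ∪ H i 1 a' b') := by
  decide +kernel

theorem fort4 : ∀ (i i' : Fin 3) (j j' : Fin 2) (a b a' b' : Bool), i ≠ i' →
    Fort ({(i, .inl 0), (i', .inl 0)} ∪ (H i j a b ∪ H i' j' a' b')) := by
  decide +kernel

theorem block : ∀ T : Finset (Fin 5), (3 ∈ T ∨ 4 ∈ T) → (1 ∈ T ∨ 2 ∈ T) →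
    2 ≤ T.card ∧ (T.card = 2 → ∃ a b : Bool, 0 ∉ T ∧ p a ∉ T ∧ q b ∉ T) := by
  decide +kernel

theorem seventeen_le (S : Finset V36) (hS : IsZeroForcing G36 S) : 17 ≤ S.card := by
  by_contra hlt
  have hmeet : ∀ F : Finset V36, F.Nonempty → Fort F → ∃ v ∈ F, v ∈ S :=
    fun F hne hF => meets_fort hS F hne hF
  let T : Fin 3 → Fin 2 → Finset (Fin 5) := fun i j =>
    Finset.univ.filter (fun k => ((i, Sum.inr (j, k)) : V36) ∈ S)
  have hT : ∀ i j k, k ∈ T i j ↔ ((i, Sum.inr (j, k)) : V36) ∈ S := by
    intro i j k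
    simp [T]
  have hb : ∀ i j, 2 ≤ (T i j).card ∧
      ((T i j).card = 2 → ∃ a b : Bool, 0 ∉ T i j ∧ p a ∉ T i j ∧ q b ∉ T i j) := by
    intro i j
    apply block
    · obtain ⟨v, hv, hvS⟩ := hmeet _ ⟨_, Finset.mem_insert_self _ _⟩ (fort1 i j)
      rw [Finset.mem_insert, Finset.mem_singleton] at hv
      rcases hv with rfl | rfl
      · exact Or.inl ((hT _ _ _).mpr hvS)
      · exact Or.inr ((hT _ _ _).mpr hvS)
    · obtain ⟨v, hv, hvS⟩ := hmeet _ ⟨_, Finset.mem_insert_self _ _⟩ (fort2 i j)
      rw [Finset.mem_insert, Finset.mem_singleton] at hv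
      rcases hv with rfl | rfl
      · exact Or.inl ((hT _ _ _).mpr hvS)
      · exact Or.inr ((hT _ _ _).mpr hvS)
  -- a half-fort missed by `S`
  have hH : ∀ i j, (T i j).card = 2 → ∃ a b : Bool, ∀ v ∈ H i j a b, v ∉ S := by
    intro i j h2
    obtain ⟨a, b, h0, ha, hb'⟩ := (hb i j).2 h2
    refine ⟨a, b, fun v hv => ?_⟩
    simp only [H, Finset.mem_insert, Finset.mem_singleton] at hv
    rcases hv with rfl | rfl | rfl
    · exact fun h => h0 ((hT _ _ _).mpr h)
    · exact fun h => ha ((hT _ _ _).mpr h)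
    · exact fun h => hb' ((hT _ _ _).mpr h)
  have h5 : ∀ i, 5 ≤ (T i 0).card + (T i 1).card := by
    intro i
    by_contra hlt'
    have h0 := (hb i 0).1
    have h1 := (hb i 1).1
    obtain ⟨a, b, hab⟩ := hH i 0 (by omega)
    obtain ⟨a', b', hab'⟩ := hH i 1 (by omega)
    obtain ⟨v, hv, hvS⟩ := hmeet (H i 0 a b ∪ H i 1 a' b')
      ⟨(i, .inr (0, 0)), by simp [H]⟩ (fort3 i a b a' b')
    rcases Finset.mem_union.mp hv with h | h
    · exact hab v h hvS
    · exact hab' v h hvS
  -- the number of vertices of `S` in the branch `i`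
  let m : Fin 3 → ℕ := fun i => ∑ w : W, if ((i, w) : V36) ∈ S then 1 else 0
  have hcard : S.card = m 0 + m 1 + m 2 := by
    have h1 : S.card = ∑ v : V36, if v ∈ S then 1 else 0 := by
      rw [Finset.sum_ite_mem]
      simp
    rw [h1, Fintype.sum_prod_type, Fin.sum_univ_three]
  have hm : ∀ i, m i = (if ((i, Sum.inl 0) : V36) ∈ S then 1 else 0) +
      (if ((i, Sum.inl 1) : V36) ∈ S then 1 else 0) + ((T i 0).card + (T i 1).card) := by
    intro i
    have h1 : ∀ j, (T i j).card = ∑ k : Fin 5, if ((i, Sum.inr (j, k)) : V36) ∈ S then 1 else 0 := by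
      intro j
      simp only [T, Finset.card_filter]
    simp only [m]
    rw [Fintype.sum_sum_type, Fin.sum_univ_two, Fintype.sum_prod_type, Fin.sum_univ_two, h1, h1]
  have hgood : ∀ i, m i ≤ 5 → ((i, Sum.inl 0) : V36) ∉ S ∧ ∃ j, (T i j).card = 2 := by
    intro i hi
    have h1 := hm i
    have h2 := h5 i
    have h3 := (hb i 0).1
    have h4 := (hb i 1).1
    constructor
    · intro hmem
      rw [if_pos hmem] at h1
      omega
    · by_cases h0 : (T i 0).card = 2
      · exact ⟨0, h0⟩
      · refine ⟨1, ?_⟩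
        omega
  have hm5 : ∀ i, 5 ≤ m i := by
    intro i
    have h1 := hm i
    have h2 := h5 i
    omega
  obtain ⟨i, i', hii', hi, hi'⟩ : ∃ i i' : Fin 3, i ≠ i' ∧ m i ≤ 5 ∧ m i' ≤ 5 := by
    have h0 := hm5 0
    have h1 := hm5 1
    have h2 := hm5 2
    by_cases ha : m 0 ≤ 5
    · by_cases hb' : m 1 ≤ 5
      · exact ⟨0, 1, by decide, ha, hb'⟩
      · exact ⟨0, 2, by decide, ha, by omega⟩
    · exact ⟨1, 2, by decide, by omega, by omega⟩
  obtain ⟨hc, j, hj⟩ := hgood i hi
  obtain ⟨hc', j', hj'⟩ := hgood i' hi'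
  obtain ⟨a, b, hab⟩ := hH i j hj
  obtain ⟨a', b', hab'⟩ := hH i' j' hj'
  obtain ⟨v, hv, hvS⟩ := hmeet _ ⟨(i, .inl 0), by simp⟩ (fort4 i i' j j' a b a' b' hii')
  rcases Finset.mem_union.mp hv with h | h
  · rw [Finset.mem_insert, Finset.mem_singleton] at h
    rcases h with rfl | rfl
    · exact hc hvS
    · exact hc' hvS
  · rcases Finset.mem_union.mp h with h | h
    · exact hab v h hvS
    · exact hab' v h hvS

theorem connected : G36.Connected := by
  have h1 : ∀ i : Fin 3, G36.Reachable (0, .inl 0) (i, .inl 0) := by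
    intro i
    by_cases hi : i = 0
    · subst hi; exact SimpleGraph.Reachable.refl _
    · apply SimpleGraph.Adj.reachable
      change adj _ _ = true
      revert i
      decide
  have h2 : ∀ i : Fin 3, G36.Adj (i, .inl 0) (i, .inl 1) := by decide
  have h3 : ∀ (i : Fin 3) (j : Fin 2), G36.Adj (i, .inl 1) (i, .inr (j, 0)) := by decide
  have h4 : ∀ (i : Fin 3) (j : Fin 2) (a : Bool), G36.Adj (i, .inr (j, 0)) (i, .inr (j, p a)) := by
    decide
  have h5 : ∀ (i : Fin 3) (j : Fin 2) (b : Bool), G36.Adj (i, .inr (j, 1)) (i, .inr (j, q b)) := by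
    decide
  have h6 : ∀ v : V36, G36.Reachable (0, .inl 0) v := by
    have hr : ∀ i : Fin 3, G36.Reachable (0, .inl 0) (i, .inl 1) :=
      fun i => (h1 i).trans (h2 i).reachable
    have hs : ∀ (i : Fin 3) (j : Fin 2), G36.Reachable (0, .inl 0) (i, .inr (j, 0)) :=
      fun i j => (hr i).trans (h3 i j).reachable
    have hp : ∀ (i : Fin 3) (j : Fin 2) (a : Bool),
        G36.Reachable (0, .inl 0) (i, .inr (j, p a)) :=
      fun i j a => (hs i j).trans (h4 i j a).reachable
    have hq : ∀ (i : Fin 3) (j : Fin 2) (b : Bool),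
        G36.Reachable (0, .inl 0) (i, .inr (j, q b)) :=
      fun i j b => (hp i j true).trans (h5 i j b).reachable
    rintro ⟨i, a | ⟨j, k⟩⟩
    · fin_cases a
      · exact h1 i
      · exact hr i
    · fin_cases k
      · exact hs i j
      · exact hp i j true
      · exact hp i j false
      · exact hq i j true
      · exact hq i j false
  have : Nonempty V36 := ⟨(0, .inl 0)⟩
  exact ⟨fun u v => (h6 u).symm.trans (h6 v)⟩

/-- There is a finite connected cubic graph `G`, not isomorphic to `K₄`, with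
`Z(G) ≥ α(G) + 2`. -/
theorem result : ∃ (V : Type) (G : SimpleGraph V), Finite V ∧ G.Connected ∧
    (∀ v, (G.neighborSet v).ncard = 3) ∧ ¬ Nonempty (G ≃g (⊤ : SimpleGraph (Fin 4))) ∧
    G.indepNum + 2 ≤ zeroForcingNumber G := by
  refine ⟨V36, G36, inferInstance, connected, ?_, ?_, ?_⟩
  · intro v
    have h1 : G36.neighborSet v = ((Finset.univ.filter (fun w => adj v w = true) : Finset V36) :
        Set V36) := by
      ext w
      simp [SimpleGraph.mem_neighborSet, G36]
    rw [h1, Set.ncard_coe_finset]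
    exact degree_three v
  · rintro ⟨e⟩
    have := Fintype.card_congr e.toEquiv
    revert this
    decide
  · have h1 := indepNum_le
    have h2 : 17 ≤ zeroForcingNumber G36 := by
      unfold zeroForcingNumber
      apply le_csInf
      · exact ⟨_, Finset.univ, rfl, fun v => Coloured.base v (Finset.mem_univ v)⟩
      · rintro k ⟨S, rfl, hS⟩
        exact seventeen_le S hS
    omega

end Pool.Agent.Results.MP_48c3bc_co.CubicCounterexample
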